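import Pool.Agent.Lib.BSDP.C.FamCard

/-!
Block I (final assembly), part 1: the twists of the curves of the family are minimal of bounded
height, the twisted pair determines the pair, its `j`-invariant is not constant.
-/

set_option autoImplicit false

open Polynomial

namespace Pool.Agent.BSDP

variable {k : Type} [Field k]

/-- `(A, B)` is a minimal pair of height at most `M`: `deg A ≤ 4 M`, `deg B ≤ 6 M`, nonzero
discriminant, and there is no irreducible `π` with `π ^ 4 ∣ A` and `π ^ 6 ∣ B`. -/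
def Height (M : ℕ) (A B : k[X]) : Prop :=
  A.natDegree ≤ 4 * M ∧ B.natDegree ≤ 6 * M ∧ 4 * A ^ 3 + 27 * B ^ 2 ≠ 0 ∧
    ∀ π : k[X], Irreducible π → ¬ (π ^ 4 ∣ A ∧ π ^ 6 ∣ B)

/-- (I1) over a finite field there is a cubic `x ^ 3 + a x + b` without root -/
theorem exists_cubic [Finite k] : ∃ a b : k, ∀ x : k, x ^ 3 + a * x + b ≠ 0 := by
  by_contra hcon
  push Not at hcon
  have hsurj : Function.Surjective (fun x : k => x ^ 3 - x) := by
    intro y
    obtain ⟨x, hx⟩ := hcon (-1) (-y)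
    refine ⟨x, ?_⟩
    have : x ^ 3 - x - y = 0 := by linear_combination hx
    simpa [sub_eq_zero] using this
  have hinj := Finite.injective_iff_surjective.2 hsurj
  have h01 : (0 : k) = 1 := hinj (by simp)
  exact zero_ne_one h01

section deg

theorem finite_height [Finite k] (M : ℕ) : {p : k[X] × k[X] | Height M p.1 p.2}.Finite := by
  refine Set.Finite.subset
    ((finite_natDegree_le' (k := k) (4 * M)).prod (finite_natDegree_le' (k := k) (6 * M))) ?_
  rintro ⟨A, B⟩ h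
  exact ⟨h.1, h.2.1⟩

/-- (I2) -/
theorem card_height_le [Finite k] (M : ℕ) :
    Nat.card {p : k[X] × k[X] // Height M p.1 p.2} ≤ Nat.card k ^ (10 * M + 2) := by
  have hfin1 := finite_natDegree_le' (k := k) (4 * M)
  have hfin2 := finite_natDegree_le' (k := k) (6 * M)
  have : Finite {f : k[X] // f.natDegree ≤ 4 * M} := hfin1.to_subtype
  have : Finite {f : k[X] // f.natDegree ≤ 6 * M} := hfin2.to_subtype
  let g : {p : k[X] × k[X] // Height M p.1 p.2} →
      {f : k[X] // f.natDegree ≤ 4 * M} × {f : k[X] // f.natDegree ≤ 6 * M} :=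
    fun p => (⟨p.1.1, p.2.1⟩, ⟨p.1.2, p.2.2.1⟩)
  have hg : Function.Injective g := by
    rintro ⟨⟨A, B⟩, h⟩ ⟨⟨A', B'⟩, h'⟩ heq
    simp only [g, Prod.mk.injEq, Subtype.mk.injEq] at heq
    obtain ⟨h1, h2⟩ := heq
    subst h1; subst h2; rfl
  refine (Nat.card_le_card_of_injective g hg).trans (le_of_eq ?_)
  rw [Nat.card_prod, card_natDegree_le, card_natDegree_le, ← pow_add]
  congr 1
  omega

end deg

/-! ### The twists -/

theorem squarefree_prod {V W : Finset k[X]} (hV : ∀ π ∈ V, π.Monic ∧ Irreducible π)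
    (hW : W ⊆ V) : Squarefree (∏ π ∈ W, π) := by
  refine Finset.squarefree_prod_of_pairwise_isCoprime ?_ ?_
  · intro π hπ π' hπ' hne
    have h1 := hV π (hW hπ)
    have h2 := hV π' (hW hπ')
    have hc : IsCoprime π π' := by
      refine (Irreducible.coprime_iff_not_dvd h1.2).2 ?_
      intro hdvd
      exact hne (eq_of_monic_of_associated h1.1 h2.1 (h1.2.associated_of_dvd h2.2 hdvd))
    exact hc.isRelPrime
  · intro π hπ
    exact (hV π (hW hπ)).2.squarefree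

theorem monic_prod {V W : Finset k[X]} (hV : ∀ π ∈ V, π.Monic ∧ Irreducible π) (hW : W ⊆ V) :
    (∏ π ∈ W, π).Monic := monic_prod_of_monic _ _ fun π hπ => (hV π (hW hπ)).1

theorem natDegree_prod_le {V W : Finset k[X]} (hV : ∀ π ∈ V, π.Monic ∧ Irreducible π)
    (hW : W ⊆ V) : (∏ π ∈ W, π).natDegree ≤ (∏ π ∈ V, π).natDegree :=
  natDegree_le_of_dvd (Finset.prod_dvd_prod_of_subset _ _ _ hW) (monic_prod hV subset_rfl).ne_zero

/-- a prime which divides `A` and `B` has a square dividing the discriminant -/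
theorem not_dvd_both {A B π : k[X]} (hsq : Squarefree (4 * A ^ 3 + 27 * B ^ 2))
    (hπ : Irreducible π) (hA : π ∣ A) (hB : π ∣ B) : False := by
  have h1 : π * π ∣ 4 * A ^ 3 + 27 * B ^ 2 := by
    obtain ⟨A', rfl⟩ := hA
    obtain ⟨B', rfl⟩ := hB
    exact ⟨4 * π * A' ^ 3 + 27 * B' ^ 2, by ring⟩
  exact hπ.not_isUnit (hsq π h1)

theorem dvd_of_pow_dvd_mul {A D π : k[X]} (hD : Squarefree D) (hπ : Irreducible π) {i j : ℕ}
    (hj : j ≠ 0) (hij : i = 2 * j) (h : π ^ i ∣ A * D ^ j) : π ∣ A := by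
  by_contra hA
  have hcop : IsCoprime (π ^ i) A := ((Irreducible.coprime_iff_not_dvd hπ).2 hA).pow_left
  have h1 : π ^ i ∣ D ^ j := hcop.dvd_of_dvd_mul_left h
  rw [hij, pow_mul] at h1
  have h2 : π ^ 2 ∣ D := (UniqueFactorizationMonoid.pow_dvd_pow_iff_dvd hj).1 h1
  rw [pow_two] at h2
  exact hπ.not_isUnit (hD π h2)

/-- (I3) the twists of the curves of the family are minimal of bounded height -/
theorem height_twist {a b : k} {m h : ℕ} {A B D : k[X]} (hF : Fam a b m A B)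
    (hD : Squarefree D) (hdeg : D.natDegree ≤ 2 * h) :
    Height (m + h) (A * D ^ 2) (B * D ^ 3) := by
  have hD0 : D ≠ 0 := hD.ne_zero
  have hΔ0 : 4 * A ^ 3 + 27 * B ^ 2 ≠ 0 := hF.sqf.ne_zero
  refine ⟨?_, ?_, ?_, ?_⟩
  · refine natDegree_mul_le.trans ?_
    rw [natDegree_pow]
    have := hF.degA
    omega
  · refine natDegree_mul_le.trans ?_
    rw [natDegree_pow]
    have := hF.degB
    omega
  · have h1 : 4 * (A * D ^ 2) ^ 3 + 27 * (B * D ^ 3) ^ 2 =
        (4 * A ^ 3 + 27 * B ^ 2) * D ^ 6 := by ring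
    rw [h1]
    exact mul_ne_zero hΔ0 (pow_ne_zero _ hD0)
  · rintro π hπ ⟨h1, h2⟩
    exact not_dvd_both hF.sqf hπ (dvd_of_pow_dvd_mul hD hπ (by norm_num) (by norm_num) h1)
      (dvd_of_pow_dvd_mul hD hπ (by norm_num) (by norm_num) h2)

theorem mem_iff_dvd {V W : Finset k[X]} (hV : ∀ π ∈ V, π.Monic ∧ Irreducible π) (hW : W ⊆ V)
    {a b : k} {m : ℕ} {A B : k[X]} (hF : Fam a b m A B) {π : k[X]} (hπ : π ∈ V) :
    π ∈ W ↔ π ^ 2 ∣ A * (∏ σ ∈ W, σ) ^ 2 ∧ π ^ 3 ∣ B * (∏ σ ∈ W, σ) ^ 3 := by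
  constructor
  · intro h
    have hd : π ∣ ∏ σ ∈ W, σ := Finset.dvd_prod_of_mem _ h
    exact ⟨(pow_dvd_pow_of_dvd hd 2).mul_left _, (pow_dvd_pow_of_dvd hd 3).mul_left _⟩
  · rintro ⟨h1, h2⟩
    by_contra hn
    have hirr := (hV π hπ).2
    have hcop : IsCoprime π (∏ σ ∈ W, σ) := by
      refine IsCoprime.prod_right fun σ hσ => ?_
      refine (Irreducible.coprime_iff_not_dvd hirr).2 fun hdvd => hn ?_
      have h3 := hV σ (hW hσ)
      have : π = σ :=
        eq_of_monic_of_associated (hV π hπ).1 h3.1 (hirr.associated_of_dvd h3.2 hdvd)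
      rwa [this]
    have hA : π ^ 2 ∣ A := (hcop.pow (m := 2) (n := 2)).dvd_of_dvd_mul_right h1
    have hB : π ^ 3 ∣ B := (hcop.pow (m := 3) (n := 3)).dvd_of_dvd_mul_right h2
    exact not_dvd_both hF.sqf hirr ((dvd_pow_self π (by norm_num)).trans hA)
      ((dvd_pow_self π (by norm_num)).trans hB)

/-- (I4) the twisted pair determines the pair -/
theorem twist_inj {V W W' : Finset k[X]} (hV : ∀ π ∈ V, π.Monic ∧ Irreducible π) (hW : W ⊆ V)
    (hW' : W' ⊆ V) {a b : k} {m : ℕ} {A B A' B' : k[X]} (hF : Fam a b m A B)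
    (hF' : Fam a b m A' B')
    (h1 : A * (∏ π ∈ W, π) ^ 2 = A' * (∏ π ∈ W', π) ^ 2)
    (h2 : B * (∏ π ∈ W, π) ^ 3 = B' * (∏ π ∈ W', π) ^ 3) : A = A' ∧ B = B' := by
  have hWW : W = W' := by
    ext π
    constructor
    · intro h
      rw [mem_iff_dvd hV hW' hF' (hW h), ← h1, ← h2, ← mem_iff_dvd hV hW hF (hW h)]
      exact h
    · intro h
      rw [mem_iff_dvd hV hW hF (hW' h), h1, h2, ← mem_iff_dvd hV hW' hF' (hW' h)]
      exact h
  subst hWW
  have hD0 : (∏ π ∈ W, π) ≠ 0 := (monic_prod hV hW).ne_zero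
  exact ⟨mul_right_cancel₀ (pow_ne_zero 2 hD0) h1, mul_right_cancel₀ (pow_ne_zero 3 hD0) h2⟩

/-! ### The `j`-invariant -/

/-- the `j`-invariant `6912 A ^ 3 / (4 A ^ 3 + 27 B ^ 2)` is not a constant -/
def JNonconst (A B : k[X]) : Prop :=
  ∀ c : k, 6912 * A ^ 3 ≠ C c * (4 * A ^ 3 + 27 * B ^ 2)

theorem jNonconst_fam (h2 : (2 : k) ≠ 0) (h3 : (3 : k) ≠ 0) {a b : k}
    (hφ : ∀ x : k, x ^ 3 + a * x + b ≠ 0) {m : ℕ} (hm : 1 ≤ m) {A B : k[X]}
    (hF : Fam a b m A B) : JNonconst A B := by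
  intro c hc
  have hcoeff := disc_coeff (k := k) (a := a) (b := b) (m := m) (A := A) (B := B)
    ⟨hF.degA, hF.coeffA⟩ ⟨hF.degB, hF.coeffB⟩
  have hne := disc_const_ne_zero h2 h3 hφ
  have hnu : ¬ IsUnit (4 * A ^ 3 + 27 * B ^ 2) := by
    intro hu
    have h0 : (4 * A ^ 3 + 27 * B ^ 2).natDegree = 0 := natDegree_eq_zero_of_isUnit hu
    have h1 : (Disc A B).coeff (12 * m) = 0 := by
      refine coeff_eq_zero_of_natDegree_lt ?_
      have : (Disc A B).natDegree = 0 := h0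
      omega
    rw [h1] at hcoeff
    exact hne hcoeff.2.symm
  have h6912 : (6912 : k) ≠ 0 := by
    have : (6912 : k) = 2 ^ 8 * 3 ^ 3 := by norm_num
    rw [this]
    exact mul_ne_zero (pow_ne_zero _ h2) (pow_ne_zero _ h3)
  have hCu : (6912 : k[X]) = C (6912 : k) := (map_ofNat C 6912).symm
  have h27 : (27 : k) ≠ 0 := by
    have : (27 : k) = 3 ^ 3 := by norm_num
    rw [this]
    exact pow_ne_zero _ h3
  have hC27 : (27 : k[X]) = C (27 : k) := (map_ofNat C 27).symm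
  rcases eq_or_ne c 0 with rfl | hc0
  · rw [C_0, zero_mul, hCu] at hc
    have hA : A = 0 := by
      rcases mul_eq_zero.1 hc with h | h
      · exact absurd (C_eq_zero.1 h) h6912
      · exact pow_eq_zero_iff (by norm_num) |>.1 h
    subst hA
    have hu : IsUnit B := hF.sqf B ⟨27, by ring⟩
    refine hnu ?_
    have h1 : (4 * (0 : k[X]) ^ 3 + 27 * B ^ 2) = C (27 : k) * B ^ 2 := by
      rw [hC27]; ring
    rw [h1]
    exact (isUnit_C.2 h27.isUnit).mul (hu.pow 2)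
  · have h1 : 4 * A ^ 3 + 27 * B ^ 2 = C (c⁻¹ * 6912) * A ^ 3 := by
      have h2 : C c⁻¹ * (C c * (4 * A ^ 3 + 27 * B ^ 2)) = 4 * A ^ 3 + 27 * B ^ 2 := by
        rw [← mul_assoc, ← C_mul, inv_mul_cancel₀ hc0, C_1, one_mul]
      rw [← h2, ← hc, hCu, ← mul_assoc, ← C_mul]
    have hu : IsUnit A := hF.sqf A ⟨C (c⁻¹ * 6912) * A, by rw [h1]; ring⟩
    refine hnu ?_
    rw [h1]
    exact (isUnit_C.2 (mul_ne_zero (inv_ne_zero hc0) h6912).isUnit).mul (hu.pow 3)

theorem jNonconst_twist {A B D : k[X]} (hD : D ≠ 0) (h : JNonconst A B) :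
    JNonconst (A * D ^ 2) (B * D ^ 3) := by
  intro c hc
  refine h c ?_
  have h6 : D ^ 6 ≠ 0 := pow_ne_zero _ hD
  refine mul_right_cancel₀ h6 ?_
  linear_combination hc

/-- in terms of Mathlib's `WeierstrassCurve.j` -/
theorem JNonconst.j_ne (h2 : (2 : k) ≠ 0) {A B : k[X]} (h : JNonconst A B)
    [(⟨0, 0, 0, cc A, cc B⟩ : WeierstrassCurve (RatFunc k)).IsElliptic] (c : k) :
    (⟨0, 0, 0, cc A, cc B⟩ : WeierstrassCurve (RatFunc k)).j ≠ algebraMap k (RatFunc k) c := by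
  intro hj
  set W : WeierstrassCurve (RatFunc k) := ⟨0, 0, 0, cc A, cc B⟩ with hW
  have hΔ : W.Δ = -16 * (4 * cc A ^ 3 + 27 * cc B ^ 2) := by
    simp only [hW, WeierstrassCurve.Δ, WeierstrassCurve.b₂, WeierstrassCurve.b₄,
      WeierstrassCurve.b₆, WeierstrassCurve.b₈]
    ring
  have hc4 : W.c₄ = -48 * cc A := by
    simp only [hW, WeierstrassCurve.c₄, WeierstrassCurve.b₂, WeierstrassCurve.b₄]
    ring
  have h1 : W.Δ * W.j = W.c₄ ^ 3 := by
    rw [WeierstrassCurve.j, ← WeierstrassCurve.coe_Δ', ← mul_assoc, Units.mul_inv, one_mul]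
  rw [hj, hΔ, hc4] at h1
  have h16 : (16 : RatFunc k) ≠ 0 := by
    have h2' : (2 : RatFunc k) ≠ 0 := by
      have h4 : algebraMap k (RatFunc k) 2 = 2 := map_ofNat _ 2
      rw [← h4]
      exact (_root_.map_ne_zero (algebraMap k (RatFunc k))).2 h2
    have : (16 : RatFunc k) = 2 ^ 4 := by norm_num
    rw [this]
    exact pow_ne_zero _ h2'
  have h3 : (6912 : RatFunc k) * cc A ^ 3 =
      algebraMap k (RatFunc k) c * (4 * cc A ^ 3 + 27 * cc B ^ 2) := by
    refine mul_left_cancel₀ h16 ?_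
    linear_combination h1
  refine h c ?_
  apply IsFractionRing.injective k[X] (RatFunc k)
  have hc : algebraMap k[X] (RatFunc k) (C c) = algebraMap k (RatFunc k) c := by
    rw [IsScalarTower.algebraMap_apply k k[X] (RatFunc k)]
    rfl
  simp only [map_mul, map_add, map_pow, map_ofNat, hc]
  exact h3

end Pool.Agent.BSDP
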