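import Pool.Agent.Lib.BSDP.I.Fam
import Pool.Agent.Lib.BSDP.C.BadCard
import Pool.Agent.Lib.BSDP.H.Main

/-!
Block I (final assembly), part 2: the density theorem. From

* (C) `fam_card`, `bad_card` (counting),
* (B) the pairs of the family with an undetected class are represented by undetected quintuples,
* (T) every pair of the family all of whose classes are detected at primes of `V` has a twist by a
  product of primes of `V` with the property `P` (for instance trivial `2`-Selmer group),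

a positive proportion of the minimal pairs of height at most `M` has the property `P`.
-/

set_option autoImplicit false

open Polynomial

namespace Pool.Agent.BSDP

variable {k : Type} [Field k]

/-- there are arbitrarily large finite sets of monic irreducible polynomials -/
theorem exists_primes (N : ℕ) :
    ∃ V : Finset k[X], V.card = N ∧ ∀ π ∈ V, π.Monic ∧ Irreducible π := by
  classical
  induction N with
  | zero => exact ⟨∅, rfl, by simp⟩
  | succ N ih =>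
    obtain ⟨V, hc, hV⟩ := ih
    have hmon : (∏ π ∈ V, π).Monic := monic_prod hV subset_rfl
    have hnu : ¬ IsUnit (X * (∏ π ∈ V, π) + 1 : k[X]) := by
      intro hu
      have h0 := natDegree_eq_zero_of_isUnit hu
      have h1 : (X * (∏ π ∈ V, π) : k[X]).Monic := monic_X.mul hmon
      have h2 : (X * (∏ π ∈ V, π) : k[X]).natDegree = 1 + (∏ π ∈ V, π).natDegree := by
        rw [monic_X.natDegree_mul hmon, natDegree_X]
      have h3 : (X * (∏ π ∈ V, π) + 1 : k[X]).natDegree =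
          (X * (∏ π ∈ V, π) : k[X]).natDegree := by
        rw [← C_1, natDegree_add_C]
      omega
    have hne : (X * (∏ π ∈ V, π) + 1 : k[X]) ≠ 0 := by
      intro h0
      have h1 : (X * (∏ π ∈ V, π) : k[X]) = C (-1) := by
        rw [C_neg, C_1]
        exact eq_neg_of_add_eq_zero_left h0
      have h2 : (X * (∏ π ∈ V, π) : k[X]).natDegree = 1 + (∏ π ∈ V, π).natDegree := by
        rw [monic_X.natDegree_mul hmon, natDegree_X]
      rw [h1, natDegree_C] at h2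
      omega
    obtain ⟨σ, hσ, hdvd⟩ := WfDvdMonoid.exists_irreducible_factor hnu hne
    have hσ0 : σ ≠ 0 := hσ.ne_zero
    have hn : Irreducible (normalize σ) := (associated_normalize σ).irreducible hσ
    refine ⟨insert (normalize σ) V, ?_, ?_⟩
    · rw [Finset.card_insert_of_notMem, hc]
      intro hmem
      have h1 : normalize σ ∣ ∏ π ∈ V, π := Finset.dvd_prod_of_mem _ hmem
      have h2 : normalize σ ∣ X * (∏ π ∈ V, π) + 1 := (normalize_dvd_iff).2 hdvd
      have h3 : normalize σ ∣ 1 := (dvd_add_right (h1.mul_left X)).1 h2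
      exact hn.not_isUnit (isUnit_of_dvd_one h3)
    · intro π hπ
      rcases Finset.mem_insert.1 hπ with rfl | hπ
      · exact ⟨monic_normalize hσ0, hn⟩
      · exact hV π hπ

theorem finite_fam [Finite k] (a b : k) (m : ℕ) :
    {p : k[X] × k[X] | Fam a b m p.1 p.2}.Finite := by
  refine Set.Finite.subset
    ((finite_natDegree_le' (k := k) (4 * m)).prod (finite_natDegree_le' (k := k) (6 * m))) ?_
  rintro ⟨A, B⟩ h
  exact ⟨h.degA, h.degB⟩

/-- the pairs of the family all of whose classes are detected, against the minimal pairs with the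
property `P` -/
theorem card_good_le [Finite k] {a b : k} {m : ℕ} (V : Finset k[X])
    (hV : ∀ π ∈ V, π.Monic ∧ Irreducible π) (P : k[X] → k[X] → Prop)
    (hT : ∀ A B : k[X], Fam a b m A B → AllDet V A B →
      ∃ W ⊆ V, P (A * (∏ π ∈ W, π) ^ 2) (B * (∏ π ∈ W, π) ^ 3)) :
    Nat.card {p : k[X] × k[X] // Fam a b m p.1 p.2 ∧ AllDet V p.1 p.2} ≤
      Nat.card {p : k[X] × k[X] //
        Height (m + (∏ π ∈ V, π).natDegree) p.1 p.2 ∧ P p.1 p.2} := by
  have hfin : {p : k[X] × k[X] |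
      Height (m + (∏ π ∈ V, π).natDegree) p.1 p.2 ∧ P p.1 p.2}.Finite :=
    (finite_height (k := k) _).subset fun p hp => hp.1
  have : Finite {p : k[X] × k[X] //
      Height (m + (∏ π ∈ V, π).natDegree) p.1 p.2 ∧ P p.1 p.2} := hfin.to_subtype
  choose! W hWV hW using hT
  let g : {p : k[X] × k[X] // Fam a b m p.1 p.2 ∧ AllDet V p.1 p.2} →
      {p : k[X] × k[X] // Height (m + (∏ π ∈ V, π).natDegree) p.1 p.2 ∧ P p.1 p.2} := fun p =>
    ⟨(p.1.1 * (∏ π ∈ W p.1.1 p.1.2, π) ^ 2, p.1.2 * (∏ π ∈ W p.1.1 p.1.2, π) ^ 3), by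
      refine ⟨height_twist p.2.1 (squarefree_prod hV (hWV _ _ p.2.1 p.2.2)) ?_,
        hW _ _ p.2.1 p.2.2⟩
      have := natDegree_prod_le hV (hWV _ _ p.2.1 p.2.2)
      omega⟩
  refine Nat.card_le_card_of_injective g ?_
  rintro ⟨⟨A, B⟩, hp⟩ ⟨⟨A', B'⟩, hp'⟩ heq
  simp only [g, Subtype.mk.injEq, Prod.mk.injEq] at heq
  obtain ⟨h1, h2⟩ := twist_inj hV (hWV _ _ hp.1 hp.2) (hWV _ _ hp'.1 hp'.2) hp.1 hp'.1 heq.1 heq.2
  simp only [Subtype.mk.injEq, Prod.mk.injEq]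
  exact ⟨h1, h2⟩

/-- the pairs of the family are good or bad -/
theorem card_fam_le [Finite k] {a b : k} {m : ℕ} (V : Finset k[X])
    (hB : ∀ A B : k[X], Fam a b m A B → ¬ AllDet V A B → Rep V m A B) :
    Nat.card {p : k[X] × k[X] // Fam a b m p.1 p.2} ≤
      Nat.card {p : k[X] × k[X] // Fam a b m p.1 p.2 ∧ AllDet V p.1 p.2} +
        Nat.card {p : k[X] × k[X] // Rep V m p.1 p.2} := by
  have h1 : Nat.card {p : k[X] × k[X] // Fam a b m p.1 p.2} =
      {p : k[X] × k[X] | Fam a b m p.1 p.2}.ncard := Nat.card_coe_set_eq _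
  have h2 : Nat.card {p : k[X] × k[X] // Fam a b m p.1 p.2 ∧ AllDet V p.1 p.2} =
      {p : k[X] × k[X] | Fam a b m p.1 p.2 ∧ AllDet V p.1 p.2}.ncard := Nat.card_coe_set_eq _
  have h3 : Nat.card {p : k[X] × k[X] // Rep V m p.1 p.2} =
      {p : k[X] × k[X] | Rep V m p.1 p.2}.ncard := Nat.card_coe_set_eq _
  rw [h1, h2, h3]
  have hf1 : {p : k[X] × k[X] | Fam a b m p.1 p.2 ∧ AllDet V p.1 p.2}.Finite :=
    (finite_fam a b m).subset fun p hp => hp.1
  refine (Set.ncard_le_ncard ?_ (hf1.union (finite_rep V m))).trans (Set.ncard_union_le _ _)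
  intro p hp
  by_cases h : AllDet V p.1 p.2
  · exact Or.inl ⟨hp, h⟩
  · exact Or.inr (hB _ _ hp h)

/-- (I6) **the density theorem**, for a general property `P` -/
theorem density_of [Finite k] (h2 : (2 : k) ≠ 0) (h3 : (3 : k) ≠ 0) {a b : k}
    (hφ : ∀ x : k, x ^ 3 + a * x + b ≠ 0) (P : k[X] → k[X] → Prop) (m1 : ℕ)
    (hB : ∀ V : Finset k[X], (∀ π ∈ V, π.Monic ∧ Irreducible π) → ∀ m ≥ m1, ∀ A B : k[X],
      Fam a b m A B → ¬ AllDet V A B → Rep V m A B)
    (hT : ∀ V : Finset k[X], (∀ π ∈ V, π.Monic ∧ Irreducible π) → ∀ m ≥ m1, ∀ A B : k[X],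
      Fam a b m A B → AllDet V A B →
        ∃ W ⊆ V, P (A * (∏ π ∈ W, π) ^ 2) (B * (∏ π ∈ W, π) ^ 3)) :
    ∃ c : ℝ, 0 < c ∧ ∃ M0 : ℕ, ∀ M ≥ M0,
      c * (Nat.card {p : k[X] × k[X] // Height M p.1 p.2} : ℝ) ≤
        (Nat.card {p : k[X] × k[X] // Height M p.1 p.2 ∧ P p.1 p.2} : ℝ) := by
  obtain ⟨m0, hm0⟩ := fam_card h2 h3 a b hφ
  set q : ℝ := (Nat.card k : ℝ) with hq
  have hq2 : (1 : ℝ) < q := by
    have : 1 < Nat.card k := Finite.one_lt_card
    rw [hq]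
    exact_mod_cast this
  have hq0 : (0 : ℝ) < q := by linarith
  have hq4 : (0 : ℝ) < q ^ 4 := by positivity
  -- the number of primes
  obtain ⟨N, hN⟩ : ∃ N : ℕ, (5 / 6 : ℝ) ^ N < 1 / (80 * q ^ 4) :=
    exists_pow_lt_of_lt_one (by positivity) (by norm_num)
  obtain ⟨V, hVc, hV⟩ := exists_primes (k := k) N
  set s : ℕ := (∏ π ∈ V, π).natDegree with hs
  obtain ⟨m2, hm2⟩ : ∃ m2 : ℕ, 80 * q ^ (s + 4) < q ^ m2 := pow_unbounded_of_one_lt _ hq2
  refine ⟨1 / (20 * q ^ (10 * s + 2)), by positivity, max (max m0 m1) (max m2 s) + s, ?_⟩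
  intro M hM
  obtain ⟨m, rfl⟩ : ∃ m, M = m + s := ⟨M - s, by omega⟩
  have hm : m0 ≤ m ∧ m1 ≤ m ∧ m2 ≤ m ∧ s ≤ m := by
    have h1 := le_max_left (max m0 m1) (max m2 s)
    have h2 := le_max_right (max m0 m1) (max m2 s)
    have h3 := le_max_left m0 m1
    have h4 := le_max_right m0 m1
    have h5 := le_max_left m2 s
    have h6 := le_max_right m2 s
    omega
  obtain ⟨hm_0, hm_1, hm_2, hm_s⟩ := hm
  -- the family
  have hfam : q ^ (10 * m) ≤ 10 * (Nat.card {p : k[X] × k[X] // Fam a b m p.1 p.2} : ℝ) := by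
    have := hm0 m hm_0
    rw [hq]
    exact_mod_cast this
  -- the bad pairs
  have hbad := bad_card h2 h3 V hV (s := s) (m := m) le_rfl hm_s
  rw [hVc, ← hq] at hbad
  have hqm : q ^ ((s : ℤ) - m) * q ^ 4 ≤ 1 / 80 := by
    have h1 : q ^ m2 ≤ q ^ m := pow_le_pow_right₀ hq2.le hm_2
    have h2 : q ^ ((s : ℤ) - m) = q ^ s / q ^ m := by
      rw [zpow_sub₀ hq0.ne', zpow_natCast, zpow_natCast]
    have h3 : (0 : ℝ) < q ^ m := by positivity
    rw [h2, div_mul_eq_mul_div, div_le_div_iff₀ h3 (by norm_num), ← pow_add]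
    linarith
  have hpm : (5 / 6 : ℝ) ^ N * q ^ 4 ≤ 1 / 80 := by
    have h1 : (5 / 6 : ℝ) ^ N * q ^ 4 ≤ 1 / (80 * q ^ 4) * q ^ 4 :=
      mul_le_mul_of_nonneg_right hN.le hq4.le
    refine h1.trans (le_of_eq ?_)
    field_simp
  have hbad2 : (Nat.card {p : k[X] × k[X] // Rep V m p.1 p.2} : ℝ) ≤ q ^ (10 * m) / 20 := by
    refine hbad.trans ?_
    have h1 : (2 * (5 / 6 : ℝ) ^ N + 2 * q ^ ((s : ℤ) - m)) * q ^ (10 * m + 4) =
        (2 * ((5 / 6 : ℝ) ^ N * q ^ 4) + 2 * (q ^ ((s : ℤ) - m) * q ^ 4)) * q ^ (10 * m) := by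
      rw [pow_add]; ring
    rw [h1]
    have h2 : (0 : ℝ) < q ^ (10 * m) := by positivity
    nlinarith
  have hgood := card_fam_le (a := a) (b := b) (m := m) V (hB V hV m hm_1)
  have hgood2 := card_good_le (a := a) (b := b) (m := m) V hV P (hT V hV m hm_1)
  rw [← hs] at hgood2
  have hheight := card_height_le (k := k) (m + s)
  have e1 : (Nat.card {p : k[X] × k[X] // Fam a b m p.1 p.2} : ℝ) ≤
      (Nat.card {p : k[X] × k[X] // Height (m + s) p.1 p.2 ∧ P p.1 p.2} : ℝ) +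
        (Nat.card {p : k[X] × k[X] // Rep V m p.1 p.2} : ℝ) := by
    have := hgood.trans (Nat.add_le_add_right hgood2 _)
    exact_mod_cast this
  have e2 : (Nat.card {p : k[X] × k[X] // Height (m + s) p.1 p.2} : ℝ) ≤
      q ^ (10 * (m + s) + 2) := by
    rw [hq]
    exact_mod_cast hheight
  have e3 : 1 / (20 * q ^ (10 * s + 2)) *
      (Nat.card {p : k[X] × k[X] // Height (m + s) p.1 p.2} : ℝ) ≤ q ^ (10 * m) / 20 := by
    have h1 : 1 / (20 * q ^ (10 * s + 2)) *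
        (Nat.card {p : k[X] × k[X] // Height (m + s) p.1 p.2} : ℝ) ≤
        1 / (20 * q ^ (10 * s + 2)) * q ^ (10 * (m + s) + 2) :=
      mul_le_mul_of_nonneg_left e2 (by positivity)
    refine h1.trans (le_of_eq ?_)
    have h2 : q ^ (10 * (m + s) + 2) = q ^ (10 * m) * q ^ (10 * s + 2) := by
      rw [← pow_add]; congr 1; ring
    rw [h2]
    field_simp
  linarith

/-- **A positive proportion of all minimal pairs has trivial `2`-Selmer group** and nonconstant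
`j`-invariant. -/
theorem density [Finite k] (h2 : (2 : k) ≠ 0) (h3 : (3 : k) ≠ 0) {a b : k}
    (hφ : ∀ x : k, x ^ 3 + a * x + b ≠ 0)
    (hB : ∀ V : Finset k[X], (∀ π ∈ V, π.Monic ∧ Irreducible π) → ∀ m : ℕ, 1 ≤ m → ∀ A B : k[X],
      Fam a b m A B → ¬ AllDet V A B → Rep V m A B)
    (hT : ∀ V : Finset k[X], (∀ π ∈ V, π.Monic ∧ Irreducible π) → ∀ m : ℕ, 1 ≤ m → ∀ A B : k[X],
      Fam a b m A B → AllDet V A B →
        ∃ W ⊆ V, SelTriv (A * (∏ π ∈ W, π) ^ 2) (B * (∏ π ∈ W, π) ^ 3)) :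
    ∃ c : ℝ, 0 < c ∧ ∃ M0 : ℕ, ∀ M ≥ M0,
      c * (Nat.card {p : k[X] × k[X] // Height M p.1 p.2} : ℝ) ≤
        (Nat.card {p : k[X] × k[X] //
          Height M p.1 p.2 ∧ SelTriv p.1 p.2 ∧ JNonconst p.1 p.2} : ℝ) := by
  refine density_of h2 h3 hφ (fun A B => SelTriv A B ∧ JNonconst A B) 1
    (fun V hV m hm => hB V hV m hm) ?_
  intro V hV m hm A B hF hdet
  obtain ⟨W, hW, hsel⟩ := hT V hV m hm A B hF hdet
  exact ⟨W, hW, hsel, jNonconst_twist (monic_prod hV hW).ne_zero (jNonconst_fam h2 h3 hφ hm hF)⟩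

/-- The density theorem in the form used for the result: a positive proportion of all minimal pairs
has trivial `2`-Selmer group, no rational `2`-torsion (the cubic algebra is a domain) and a
nonconstant `j`-invariant. The hypotheses are the theorems of the blocks B and T. -/
theorem density_final [Finite k] (h2 : (2 : k) ≠ 0) (h3 : (3 : k) ≠ 0) {a b : k}
    (hφ : ∀ x : k, x ^ 3 + a * x + b ≠ 0)
    (hB : ∀ V : Finset k[X], (∀ π ∈ V, π.Monic ∧ Irreducible π) → ∀ m : ℕ, 1 ≤ m → ∀ A B : k[X],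
      Fam a b m A B → ¬ AllDet V A B → Rep V m A B)
    (hT : ∀ V : Finset k[X], (∀ π ∈ V, π.Monic ∧ Irreducible π) → ∀ m : ℕ, 1 ≤ m → ∀ A B : k[X],
      Fam a b m A B → AllDet V A B →
        ∃ W ⊆ V, SelTriv (A * (∏ π ∈ W, π) ^ 2) (B * (∏ π ∈ W, π) ^ 3) ∧
          ∀ u : LK (A * (∏ π ∈ W, π) ^ 2) (B * (∏ π ∈ W, π) ^ 3), u ≠ 0 → u.norm ≠ 0) :
    ∃ c : ℝ, 0 < c ∧ ∃ M0 : ℕ, ∀ M ≥ M0,
      c * (Nat.card {p : k[X] × k[X] // Height M p.1 p.2} : ℝ) ≤
        (Nat.card {p : k[X] × k[X] // Height M p.1 p.2 ∧ SelTriv p.1 p.2 ∧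
          (∀ u : LK p.1 p.2, u ≠ 0 → u.norm ≠ 0) ∧
          ∀ _ : (⟨0, 0, 0, cc p.1, cc p.2⟩ : WeierstrassCurve (RatFunc k)).IsElliptic,
            ¬ ∃ c : k, (⟨0, 0, 0, cc p.1, cc p.2⟩ : WeierstrassCurve (RatFunc k)).j =
              algebraMap k (RatFunc k) c} : ℝ) := by
  refine density_of h2 h3 hφ (fun A B => SelTriv A B ∧ (∀ u : LK A B, u ≠ 0 → u.norm ≠ 0) ∧
    ∀ _ : (⟨0, 0, 0, cc A, cc B⟩ : WeierstrassCurve (RatFunc k)).IsElliptic,
      ¬ ∃ c : k, (⟨0, 0, 0, cc A, cc B⟩ : WeierstrassCurve (RatFunc k)).j =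
        algebraMap k (RatFunc k) c) 1
    (fun V hV m hm => hB V hV m hm) ?_
  intro V hV m hm A B hF hdet
  obtain ⟨W, hW, hsel, hdom⟩ := hT V hV m hm A B hF hdet
  refine ⟨W, hW, hsel, hdom, ?_⟩
  rintro hE ⟨c, hc⟩
  exact JNonconst.j_ne h2
    (jNonconst_twist (monic_prod hV hW).ne_zero (jNonconst_fam h2 h3 hφ hm hF)) c hc

end Pool.Agent.BSDP
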